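import Pool.Agent.Q169.ZD.Stm2

set_option autoImplicit false

/-!
# Project ZD of helper169, job CELL (helper150): the reflection construction as an acyclic complex
-/

namespace Pool.Agent.Q150.ZD

open Pool.Agent.Q169.ZD
open Pool.Agent.TH38.CX (AcyclicGComplex)

noncomputable section

variable {B : Type} {M : CoxeterMatrix B} {W : Type} [Group W] (cs : CoxeterSystem M W)
  {H : Type} [Group H] [MulAction H B] (φ : H →* MulAut W)

lemma map_par (hφ : ∀ h b, φ h (cs.simple b) = cs.simple (h • b)) (h : H) (T : Set B) (x : W) (hx : x ∈ par cs T) :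
    φ h x ∈ par cs ((fun b => h • b) '' T) := by
  unfold par at hx ⊢
  induction hx using Subgroup.closure_induction with
  | mem x hx =>
    obtain ⟨b, hb, rfl⟩ := hx
    rw [hφ]
    exact Subgroup.subset_closure ⟨h • b, ⟨b, hb, rfl⟩, rfl⟩
  | one =>
    rw [map_one]
    exact Subgroup.one_mem _
  | mul x y _ _ hx hy =>
    rw [map_mul]
    exact Subgroup.mul_mem _ hx hy
  | inv x _ hx =>
    rw [map_inv]
    exact Subgroup.inv_mem _ hx

variable (Y : Mirrored H B)

lemma cell_eq_iff (i : ℕ) (e e' : Y.E i) (w w' : W) :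
    cell cs Y i e w = cell cs Y i e' w' ↔ e = e' ∧ w⁻¹ * w' ∈ par cs (Y.mir i e) := by
  unfold cell
  constructor
  · intro h
    obtain ⟨h1, h2⟩ := Sigma.mk.inj h
    subst h1
    exact ⟨rfl, QuotientGroup.eq.1 (eq_of_heq h2)⟩
  · rintro ⟨rfl, h⟩
    rw [QuotientGroup.eq.2 h]

lemma cell_out (i : ℕ) (x : Cell cs Y i) : cell cs Y i x.1 x.2.out = x := by
  unfold cell
  rw [QuotientGroup.out_eq']
  rfl

lemma out_mem (i : ℕ) (e : Y.E i) (w : W) :
    ((cell cs Y i e w).2.out)⁻¹ * w ∈ par cs (Y.mir i e) :=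
  ((cell_eq_iff cs Y i e e _ w).1 (cell_out cs Y i (cell cs Y i e w))).2

/-- the action -/
def actC (i : ℕ) (g : W ⋊[φ] H) (x : Cell cs Y i) : Cell cs Y i :=
  cell cs Y i (g.right • x.1) (g.left * φ g.right x.2.out)

lemma actC_cell (hφ : ∀ h b, φ h (cs.simple b) = cs.simple (h • b)) (i : ℕ) (g : W ⋊[φ] H) (e : Y.E i) (w : W) :
    actC cs φ Y i g (cell cs Y i e w) = cell cs Y i (g.right • e) (g.left * φ g.right w) := by
  have h1 := map_par cs φ hφ g.right _ _ (out_mem cs Y i e w)
  unfold actC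
  refine (cell_eq_iff cs Y i _ _ _ _).2 ⟨rfl, ?_⟩
  have h2 : (g.left * φ g.right (cell cs Y i e w).2.out)⁻¹ * (g.left * φ g.right w) =
      φ g.right ((cell cs Y i e w).2.out⁻¹ * w) := by
    rw [map_mul, map_inv]
    group
  rw [h2, Y.mir_smul]
  exact h1

/-- the action as a structure -/
def actM (hφ : ∀ h b, φ h (cs.simple b) = cs.simple (h • b)) (i : ℕ) : MulAction (W ⋊[φ] H) (Cell cs Y i) where
  smul g x := actC cs φ Y i g x
  one_smul x := by
    change actC cs φ Y i 1 x = x
    rw [← cell_out cs Y i x, actC_cell cs φ Y hφ]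
    simp
  mul_smul g g' x := by
    change actC cs φ Y i (g * g') x = actC cs φ Y i g (actC cs φ Y i g' x)
    rw [← cell_out cs Y i x, actC_cell cs φ Y hφ, actC_cell cs φ Y hφ, actC_cell cs φ Y hφ]
    simp [mul_assoc, mul_smul]

/-- the boundary as a homomorphism -/
def bdHom (i : ℕ) : (Cell cs Y (i + 1) →₀ ℤ) →+ (Cell cs Y i →₀ ℤ) where
  toFun := bdU cs Y i
  map_zero' := Finsupp.sum_zero_index
  map_add' x y := by
    unfold bdU
    exact Finsupp.sum_add_index' (fun _ => zero_smul _ _) (fun _ _ _ => add_smul _ _ _)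

lemma bdU_single (i : ℕ) (x : Cell cs Y (i + 1)) (n : ℤ) : bdU cs Y i (Finsupp.single x n) = n • bdCell cs Y i x := by
  unfold bdU
  exact Finsupp.sum_single_index (zero_smul _ _)

lemma par_mono {T T' : Set B} (h : T ⊆ T') : par cs T ≤ par cs T' :=
  Subgroup.closure_mono (Set.image_mono h)

lemma bdCell_cell (i : ℕ) (e : Y.E (i + 1)) (w : W) :
    bdCell cs Y i (cell cs Y (i + 1) e w) = (Y.bd i e).mapDomain (fun f => cell cs Y i f w) := by
  unfold bdCell
  refine Finsupp.mapDomain_congr fun f hf => ?_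
  refine (cell_eq_iff cs Y i _ _ _ _).2 ⟨rfl, ?_⟩
  exact par_mono cs (Y.mir_face i e f (Finsupp.mem_support_iff.1 hf)) (out_mem cs Y (i + 1) e w)

lemma bdCell_act (hφ : ∀ h b, φ h (cs.simple b) = cs.simple (h • b)) (i : ℕ) (g : W ⋊[φ] H) (x : Cell cs Y (i + 1)) :
    bdCell cs Y i (actC cs φ Y (i + 1) g x) = (bdCell cs Y i x).mapDomain (actC cs φ Y i g) := by
  rw [← cell_out cs Y (i + 1) x, actC_cell cs φ Y hφ, bdCell_cell, bdCell_cell, Y.bd_smul, ← Finsupp.mapDomain_comp,
    ← Finsupp.mapDomain_comp]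
  refine Finsupp.mapDomain_congr fun f _ => ?_
  simp only [Function.comp]
  rw [actC_cell cs φ Y hφ]

/-- **CELL** -/
theorem cell' : S_CELL := by
  intro B M W _ cs H _ _ φ hφ Y hY
  let act : ∀ i, MulAction (W ⋊[φ] H) (Cell cs Y i) := actM cs φ Y hφ
  have hbs : ∀ (i : ℕ) (g : W ⋊[φ] H) (x : Cell cs Y (i + 1) →₀ ℤ),
      bdHom cs Y i (x.mapDomain (actC cs φ Y (i + 1) g)) = (bdHom cs Y i x).mapDomain (actC cs φ Y i g) := by
    intro i g x
    have h1 : (bdHom cs Y i).comp (Finsupp.mapDomain.addMonoidHom (actC cs φ Y (i + 1) g)) =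
        (Finsupp.mapDomain.addMonoidHom (actC cs φ Y i g)).comp (bdHom cs Y i) := by
      refine Finsupp.addHom_ext fun y n => ?_
      change bdU cs Y i (Finsupp.mapDomain (actC cs φ Y (i + 1) g) (Finsupp.single y n)) =
        Finsupp.mapDomain (actC cs φ Y i g) (bdU cs Y i (Finsupp.single y n))
      rw [Finsupp.mapDomain_single, bdU_single, bdU_single, bdCell_act cs φ Y hφ, Finsupp.mapDomain_smul]
    exact DFunLike.congr_fun h1 x
  let U : AcyclicGComplex (W ⋊[φ] H) :=
    { E := fun i => Cell cs Y i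
      act := act
      bd := fun i => bdHom cs Y i
      bd_smul := fun i g x => hbs i g x
      len := Y.len
      isEmpty := fun i hi => by
        have := Y.isEmpty i hi
        exact ⟨fun x => this.false x.1⟩
      nonempty := by
        obtain ⟨e⟩ := hY.nonempty
        exact ⟨cell cs Y 0 e 1⟩
      exact_zero := fun x => hY.exact_zero x
      exact_succ := fun i x => hY.exact_succ i x }
  refine ⟨U, fun i e w => cell cs Y i e w, ?_, ?_, ?_, ?_⟩
  · intro i x
    exact ⟨x.1, x.2.out, (cell_out cs Y i x).symm⟩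
  · intro i e e' w w'
    exact cell_eq_iff cs Y i e e' w w'
  · intro i g e w
    exact actC_cell cs φ Y hφ i g e w
  · intro i e w
    change bdU cs Y i (Finsupp.single (cell cs Y (i + 1) e w) 1) = _
    rw [bdU_single, one_smul, bdCell_cell]

end

end Pool.Agent.Q150.ZD
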